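import Pool.Agent.Helper71_HNF.StmtR

/-!
HNF, engine II: the deductions E2BASE, E2DEC, E2LEM.
-/

set_option autoImplicit false

namespace Pool.Agent.HNF.H51

open Topology Set MeasureTheory

/-- E2BASE -/
theorem e2base (hconv : ConvStmt) : E2BaseStmt := by
  intro G _ _ _ _ I N q Γ h hQ
  refine ⟨?_, ?_, ?_, ?_, ?_, ?_, ?_, ?_, ?_, ?_, ?_, ?_, ?_⟩
  · exact ((hQ 0).zero rfl).2
  · intro t ht; exact (hQ t).g_eq ht
  · intro t; exact (hQ t).A_open
  · intro t; exact (hQ t).A_one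
  · intro t; exact (hQ t).L_open
  · intro t; exact (hQ t).L_one
  · intro t; exact (hQ t).own.pos
  · intro t; exact (hQ t).η_pos
  · intro t ht a ha; exact (hQ t).nest ht a (subset_closure ha)
  · exact hconv G Γ I (fun t => (h t).v) (fun t => (h t).g) (fun t => (h t).A)
      (fun t => (hQ t).A_one) (fun t ht => (hQ t).g_eq ht) (fun t ht => (hQ t).nest ht)
      (fun t => (hQ t).gauge)
  · intro s t hst
    rcases hst.lt_or_eq with h1 | rfl
    · exact (hQ t).η_le s h1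
    · exact le_refl _
  · intro t ht i hi a ha; exact (hQ t).right ht i hi a ha
  · intro t t' ht' htt' i hi a ha l hl; exact (hQ t).inv t' htt' ht' i hi a ha l hl

section

variable {G : Type} [Group G] [TopologicalSpace G]

/-- right names -/
lemma right_name {I : Idx} {N : LNorm G} {q : ℕ → G} {D : Dat G} (hB : Base I N q D)
    {t : ℕ} (ht : 0 < t) {z : G} (hz : z ∈ Pc I N q D t) :
    ∃ i < I.rd t, (∃ y, RelI I N q D t i y) ∧
      N.N ((D.g t * q i)⁻¹ * z) < 2 * D.η (I.th t) := by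
  obtain ⟨a, ha, x, hx, rfl⟩ := hz
  obtain ⟨i, hi, hxi⟩ := hx.1
  refine ⟨i, hi, ⟨x, hx, hxi⟩, ?_⟩
  have h1 := hB.right t ht i hi a ha
  have h2 : (D.g t * q i)⁻¹ * (a * D.v t * x) =
      ((D.g t * q i)⁻¹ * a * (D.g t * q i)) * ((D.g (I.par t) * q i)⁻¹ * x) := by
    rw [hB.g_succ t ht]; group
  rw [h2]
  have h3 := N.mul_le ((D.g t * q i)⁻¹ * a * (D.g t * q i)) ((D.g (I.par t) * q i)⁻¹ * x)
  linarith

lemma dist_le {N : LNorm G} (a b z : G) :
    N.N (a⁻¹ * b) ≤ N.N (a⁻¹ * z) + N.N (b⁻¹ * z) := by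
  have h1 : a⁻¹ * b = (a⁻¹ * z) * (b⁻¹ * z)⁻¹ := by group
  rw [h1]
  have h2 := N.mul_le (a⁻¹ * z) (b⁻¹ * z)⁻¹
  rwa [N.inv] at h2

lemma lev_pos (I : Idx) (t : ℕ) : 0 < lev I t := by
  unfold lev; positivity

lemma small_le_lev {I : Idx} {t s : ℕ} (h : I.mp t ≤ s) {η : ℝ}
    (hη : η ≤ 1 / (1000 * ((s : ℝ) + 1))) : 1000 * η ≤ lev I t := by
  have h1 : (I.mp t : ℝ) ≤ s := by exact_mod_cast h
  have h2 : (1 : ℝ) / ((s : ℝ) + 1) ≤ lev I t := by
    unfold lev
    exact one_div_le_one_div_of_le (by positivity) (by linarith)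
  have h3 : 1000 * (1 / (1000 * ((s : ℝ) + 1))) = 1 / ((s : ℝ) + 1) := by
    have : (s : ℝ) + 1 ≠ 0 := by positivity
    field_simp
  linarith

end

/-- E2DEC -/
theorem e2dec : E2DecStmt := by
  intro G _ _ _ _ I N q Γ h hQ hB
  have key : ∀ t t', 0 < t' → t' < t → I.par t = I.par t' →
      ∀ z, z ∈ Pc I N q (D2 h) t → z ∈ Pc I N q (D2 h) t' → False := by
    intro t t' ht' htt' hpar z hz hz'
    have ht : 0 < t := by omega
    obtain ⟨i, hi, hrel, hzi⟩ := right_name hB ht hz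
    obtain ⟨i', hi', hrel', hzi'⟩ := right_name hB ht' hz'
    have hηt := (hQ (I.th t)).η_small
    have hηt' := (hQ (I.th t')).η_small
    change N.N (((h t).g * q i)⁻¹ * z) < 2 * (h (I.th t)).η at hzi
    change N.N (((h t').g * q i')⁻¹ * z) < 2 * (h (I.th t')).η at hzi'
    rcases le_or_gt (I.mp t) (I.mp t') with hm | hm
    · -- avoid
      have h1 := (hQ t).avoid ht i hi hrel ((h t').g * q i')
        (Or.inl (Or.inl ⟨t', htt', i', hi', rfl⟩))
      have h2 : (h t).v * ((h (I.par t)).g * q i) = (h t).g * q i := by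
        rw [(hQ t).g_eq ht, mul_assoc]
      rw [h2] at h1
      have h3 := dist_le (N := N) ((h t').g * q i') ((h t).g * q i) z
      have h4 := small_le_lev (I := I) (t := t) (I.mp_le t) hηt
      have h5 := small_le_lev (I := I) (t := t) (hm.trans (I.mp_le t')) hηt'
      have h6 := lev_pos I t
      linarith
    · -- served
      have hp : I.par t < t' := by rw [hpar]; exact I.par_lt t' ht'
      have h1 := (hQ t).served ht ((h t').g * q i', lev I t' / 8)
        ⟨t', hp, htt', i', hi', hrel', rfl⟩ ((h (I.par t)).g * q i)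
        (Or.inl (Or.inr ⟨i, hi, rfl⟩))
      have h2 : ((h (I.par t)).g * q i)⁻¹ * ((h t).v⁻¹ * ((h t').g * q i')) =
          ((h t).g * q i)⁻¹ * ((h t').g * q i') := by
        rw [(hQ t).g_eq ht]; group
      simp only at h1
      rw [h2] at h1
      have h3 := dist_le (N := N) ((h t).g * q i) ((h t').g * q i') z
      have h4 := small_le_lev (I := I) (t := t') (I.mp_le t') hηt'
      have h5 := small_le_lev (I := I) (t := t') (hm.le.trans (I.mp_le t)) hηt
      have h6 := lev_pos I t'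
      linarith
  intro t t' ht ht' hne hpar
  rw [Set.disjoint_left]
  intro z hz hz'
  rcases lt_or_gt_of_ne hne with h1 | h1
  · exact key t' t ht h1 hpar.symm z hz' hz
  · exact key t t' ht' h1 hpar z hz hz'

/-- E2LEM -/
theorem e2lem (hE0 : E0Stmt) : E2LemStmt := by
  intro G _ _ _ _ I N q Γ h hQ hB n n' o' tN hn hn' ho' htN h1 h2 h3 h4 h5 h6 h7 h8 h9 h10 h11
    zP hzP zM hzM zO hzO zN hzN heq
  have a1 : I.th tN < tN := I.th_lt tN htN
  have a2 : I.th (I.par o') < I.par o' := I.th_lt _ h11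
  have a3 : I.th n < n := I.th_lt n hn
  have a4 : I.th n' < n' := I.th_lt n' hn'
  obtain ⟨j, hj, i, hi, hrelN, hNe⟩ := hE0 G I N q (D2 h) hB o' tN ho' htN (by omega) zO hzO
    zN hzN
  obtain ⟨iP, hiP, hrelP, hzPi⟩ := right_name hB hn hzP
  obtain ⟨iM, hiM, hrelM, hzMi⟩ := right_name hB hn' hzM
  set e0 := eps0 q (D2 h) (I.par o') j tN i with he0
  change N.N (((h n).g * q iP)⁻¹ * zP) < 2 * (h (I.th n)).η at hzPi
  change N.N (((h n').g * q iM)⁻¹ * zM) < 2 * (h (I.th n')).η at hzMi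
  change N.N (e0⁻¹ * (zO⁻¹ * zN)) < 3 * (h (I.th tN)).η at hNe
  -- conjugation of the error of `zM`
  have c1 := (hQ (I.th n')).η_conj (I.par o') (by omega) j (by omega) tN (by omega) htN i hi
    (((h n').g * q iM)⁻¹ * zM) hzMi
  rw [← he0] at c1
  -- served
  have c2 := (hQ n').served hn' ((h n).g * q iP, lev I n / 8)
    ⟨n, by omega, by omega, iP, hiP, hrelP, rfl⟩ ((h (I.par n')).g * q iM * e0)
    (Or.inr ⟨iM, hiM, I.par o', by omega, j, by omega, tN, by omega, i, hi, rfl⟩)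
  simp only at c2
  have c3 : ((h (I.par n')).g * q iM * e0)⁻¹ * ((h n').v⁻¹ * ((h n).g * q iP)) =
      ((h n').g * q iM * e0)⁻¹ * ((h n).g * q iP) := by
    rw [(hQ n').g_eq hn']; group
  rw [c3] at c2
  have c4 := dist_le (N := N) ((h n').g * q iM * e0) ((h n).g * q iP) zP
  have c5 : ((h n').g * q iM * e0)⁻¹ * zP =
      (e0⁻¹ * (((h n').g * q iM)⁻¹ * zM) * e0) * (e0⁻¹ * (zO⁻¹ * zN)) := by
    rw [heq]; group
  rw [c5] at c4
  have c6 := N.mul_le (e0⁻¹ * (((h n').g * q iM)⁻¹ * zM) * e0) (e0⁻¹ * (zO⁻¹ * zN))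
  have c7 : (h (I.th n)).η ≤ (h (I.th tN)).η := hB.η_anti (I.th tN) (I.th n) (by omega)
  have c8 := small_le_lev (I := I) (t := n) h2 (hQ (I.th tN)).η_small
  have c9 := lev_pos I n
  linarith

end Pool.Agent.HNF.H51
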